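import Pool.Agent.PFS.Stmts

/-!
# PFS squad, row NOP: points converging to a point of the limit simplex become near
-/

set_option autoImplicit false

open Matrix Filter Topology

namespace Pool.Agent.PFS.H55

open Pool.Agent.PFS

theorem nop : NopStmt := by
  intro n C hC ι _ x w p p0 M hM hp0 hpos hx hp
  obtain ⟨c, hc, hcp⟩ := hpos
  set lam : ℝ := (1 + M) / 2 with hlam
  have hl1 : 1 < lam := by rw [hlam]; linarith
  have hlM : lam < M := by rw [hlam]; linarith
  have hq : Tendsto (fun m => ∑ i, (lam * c i) • x m i) atTop (𝓝 (lam • p0)) := by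
    have h1 : lam • p0 = ∑ i, (lam * c i) • w i := by
      rw [hcp, Finset.smul_sum]
      refine Finset.sum_congr rfl fun i _ => ?_
      rw [smul_smul]
    rw [h1]
    exact tendsto_finsetSum _ fun i _ => (hx i).const_smul _
  have ha : Tendsto (fun m => (∑ i, (lam * c i) • x m i) - p m) atTop (𝓝 (lam • p0 - p0)) :=
    hq.sub hp
  have hb : Tendsto (fun m => M • p m - (∑ i, (lam * c i) • x m i)) atTop
      (𝓝 (M • p0 - lam • p0)) :=
    (hp.const_smul M).sub hq
  have ha0 : lam • p0 - p0 ∈ C := by
    have h4 : lam • p0 - p0 = (lam - 1) • p0 := by rw [sub_smul, one_smul]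
    rw [h4]; exact hC.smul p0 hp0 _ (by linarith)
  have hb0 : M • p0 - lam • p0 ∈ C := by
    have h4 : M • p0 - lam • p0 = (M - lam) • p0 := by rw [sub_smul]
    rw [h4]; exact hC.smul p0 hp0 _ (by linarith)
  filter_upwards [ha.eventually (hC.isOpen.mem_nhds ha0),
    hb.eventually (hC.isOpen.mem_nhds hb0)] with m h1 h2
  exact ⟨fun i => lam * c i, fun i => mul_pos (by linarith) (hc i), subset_closure h1,
    subset_closure h2⟩

end Pool.Agent.PFS.H55
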